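import Mathlib
import Pool.Agent.Helper18.SE.Fin2

set_option autoImplicit false
open MeasureTheory Real Set Filter Topology

namespace Pool.Agent.Results.MP_9ee088_an.DrivenErgodicity

/-- Ergodicity, weak mixing and hyperbolicity of the standard map weakly driven by an expanding
circle map, `F (θ, x, y) = (K θ, 2 x - y + a sin 2πx + ε sin 2πθ, x)` on the three dimensional torus,
for every large `|a|` and every coupling `ε` down to `K ^ 2 |a| ^ (-1 / 10)`. The fibre exponent is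
`log (π |a|)` up to a quantity that tends to `0`. -/
theorem result : ∀ K : ℕ, 200 ≤ K → ∀ ε : ℝ, 0 < ε → ε ≤ 1 / 4 →
    ∀ a : ℝ, ((K:ℝ) ^ 2 / ε) ^ 10 ≤ |a| →
    ∀ F : UnitAddCircle × (UnitAddCircle × UnitAddCircle) →
      UnitAddCircle × (UnitAddCircle × UnitAddCircle),
    (∀ θ x y : ℝ, F ((θ : UnitAddCircle), (x : UnitAddCircle), (y : UnitAddCircle)) =
      (((K * θ : ℝ) : UnitAddCircle), ((2 * x - y + a * Real.sin (2 * π * x) +
        ε * Real.sin (2 * π * θ) : ℝ) : UnitAddCircle), (x : UnitAddCircle))) →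
    Ergodic F volume ∧
    (∀ (ξ : ℂ) (h : UnitAddCircle × (UnitAddCircle × UnitAddCircle) → ℂ), Measurable h →
      (∀ᵐ q, h (F q) = ξ * h q) → ∃ c : ℂ, ∀ᵐ q, h q = c) ∧
    ∃ lam : ℝ, |lam - Real.log (π * |a|)| ≤ 100 * |a| ^ (-(1:ℝ) / 10) * Real.log |a| ∧
      ∀ᵐ z : ℝ × (ℝ × ℝ),
        Tendsto (fun n : ℕ => Real.log ‖fderiv ℝ (fun p : ℝ × ℝ =>
          ((fun q : ℝ × (ℝ × ℝ) => (K * q.1, (2 * q.2.1 - q.2.2 + a * Real.sin (2 * π * q.2.1) +
            ε * Real.sin (2 * π * q.1), q.2.1)))^[n] (z.1, p)).2) z.2‖ / n) atTop (𝓝 lam) :=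
  Pool.Agent.Helper18.SE.main3

end Pool.Agent.Results.MP_9ee088_an.DrivenErgodicity
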