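import Mathlib
import Pool.Agent.Helper95.SK.Fin

set_option autoImplicit false
open MeasureTheory Real Set

namespace Pool.Agent.Results.MP_9ee088_an.MultipleMixing

/-- Quantitative multiple mixing of the standard map `T = S_a`, for every `a` with `|a| ≥ 2` and
all times up to `o(a² / log |a|)`, also for compositions `P (n+1) = T ∘ P n + w n` with arbitrary
translations `w n` of the torus inserted between the steps (`w = 0` gives `P n = T^n`). -/
theorem result :
    ∃ C : ℝ, 0 < C ∧ ∀ a : ℝ, 2 ≤ |a| →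
      ∀ T : UnitAddCircle × UnitAddCircle → UnitAddCircle × UnitAddCircle,
      (∀ x y : ℝ, T ((x : UnitAddCircle), (y : UnitAddCircle)) =
        (((2 * x - y + a * Real.sin (2 * π * x) : ℝ) : UnitAddCircle), (x : UnitAddCircle))) →
      ∀ (w : ℕ → UnitAddCircle × UnitAddCircle)
        (P : ℕ → UnitAddCircle × UnitAddCircle → UnitAddCircle × UnitAddCircle),
      (∀ p, P 0 p = p) → (∀ n p, P (n + 1) p = T (P n p) + w n) →
      ∀ (k m : ℕ) (t : ℕ → ℕ), (∀ i, i < k → t i + m ≤ t (i + 1)) →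
      ∀ (f : ℕ → UnitAddCircle × UnitAddCircle → ℝ) (L : ℝ), 0 ≤ L →
        (∀ i p, |f i p| ≤ 1) → (∀ i p q, |f i p - f i q| ≤ L * dist p q) →
      ∀ B : ℝ, 4 ≤ B →
      |(∫ p, ∏ i ∈ Finset.range (k + 1), f i (P (t i) p)) -
          ∏ i ∈ Finset.range (k + 1), ∫ p, f i p| ≤
        C * k * (|a| ^ (-(1 / 2) : ℝ) + t k * B * Real.log |a| / |a| ^ 2 +
          k * L * (1 / B) ^ (m / 4)) := by
  obtain ⟨C, hC, h⟩ := Pool.Agent.Helper95.SK.multiple_mixing
  refine ⟨C, hC, ?_⟩
  intro a ha T hT w P hP0 hP k m t ht f L hL hf1 hfL B hB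
  have h1 := h a ha T hT P w hP0 hP k m t ht f L hL hf1 hfL B hB
  rw [show (-(1:ℝ)/2) = -(1/2) by ring] at h1
  exact h1

end Pool.Agent.Results.MP_9ee088_an.MultipleMixing
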