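import Mathlib
import Pool.Agent.Helper95.RX.Final

set_option autoImplicit false
open MeasureTheory Real Set Filter Topology

namespace Pool.Agent.Results.MP_9ee088_an.RandomForcing

/-- the standard map with parameter `a` after a kick of size `t`, in the plane -/
noncomputable def step (a t : ℝ) (z : ℝ × ℝ) : ℝ × ℝ :=
  (2 * (z.1 + t) - z.2 + a * Real.sin (2 * π * (z.1 + t)), z.1 + t)

/-- composition of the first `n` kicked maps -/
noncomputable def orbit (a t : ℕ → ℝ) : ℕ → ℝ × ℝ → ℝ × ℝ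
  | 0, z => z
  | n + 1, z => step (a n) (t n) (orbit a t n z)

lemma orbit_eq : orbit = Pool.Agent.Helper95.RX.orbit := by
  funext a t n
  induction n with
  | zero => rfl
  | succ n ih =>
    funext z
    show step (a n) (t n) (orbit a t n z) =
      Pool.Agent.Helper95.RX.step (a n) (t n) (Pool.Agent.Helper95.RX.orbit a t n z)
    rw [ih]
    rfl

/-- Standard maps with independent random kicks (not identically distributed, any laws which are
spread modulo 1/2, any parameters bounded away from 0): mean square and almost sure exponential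
mixing, exponential growth of the derivative; in the stationary case mixing of the skew product and
existence of the exponent. -/
theorem result (A s q : ℝ) (hA : 0 < A) (hA1 : A ≤ 1) (hs : 0 < s) (hs1 : s ≤ 1) (hq : 0 < q)
    (hq1 : q ≤ 1) (a : ℕ → ℝ) (ha : ∀ n, A ≤ |a n|) (ν : ℕ → Measure ℝ)
    [∀ n, IsProbabilityMeasure (ν n)]
    (hν : ∀ n, q ≤ ((ν n).prod (ν n)).real {t : ℝ × ℝ | s ≤ |Real.sin (2 * π * (t.1 - t.2))|})
    (X : ℕ → (ℕ → ℝ) → UnitAddCircle × UnitAddCircle → UnitAddCircle × UnitAddCircle)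
    (hX : ∀ n t (x y : ℝ), X n t ((x : UnitAddCircle), (y : UnitAddCircle)) =
      (((orbit a t n (x, y)).1 : UnitAddCircle), ((orbit a t n (x, y)).2 : UnitAddCircle))) :
    (∀ φ ψ : UnitAddCircle × UnitAddCircle → ℝ, MemLp φ 2 volume → MemLp ψ 2 volume → ∀ n : ℕ,
      ∫ t, ((∫ p, φ (X n t p) * ψ p) - (∫ p, φ p) * ∫ p, ψ p) ^ 2 ∂(Measure.infinitePi ν) ≤
        2 * Real.exp (-(q * s ^ 22 * A ^ 3 / 10 ^ 17 * n)) * (∫ p, φ p ^ 2) * ∫ p, ψ p ^ 2) ∧
    (∀ᵐ t ∂(Measure.infinitePi ν), ∃ C : ℝ, ∀ (n : ℕ) (φ ψ : UnitAddCircle × UnitAddCircle → ℝ),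
      LipschitzWith 1 φ → LipschitzWith 1 ψ → (∀ p, |φ p| ≤ 1) → (∀ p, |ψ p| ≤ 1) →
      |(∫ p, φ (X n t p) * ψ p) - (∫ p, φ p) * ∫ p, ψ p| ≤
        C * Real.exp (-(q * s ^ 22 * A ^ 3 / 10 ^ 17 * n))) ∧
    (∀ᵐ t ∂(Measure.infinitePi ν), ∀ᵐ z : ℝ × ℝ, ∀ᶠ n : ℕ in atTop,
      Real.exp (q * s ^ 22 * A ^ 3 / 10 ^ 17 * n) ≤ ‖fderiv ℝ (orbit a t n) z‖) ∧
    ((∀ n, a n = a 0) → (∀ n, ν n = ν 0) →
      (∀ U B : Set ((ℕ → ℝ) × (UnitAddCircle × UnitAddCircle)), MeasurableSet U →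
        MeasurableSet B → Tendsto (fun n : ℕ => ((Measure.infinitePi ν).prod volume)
          (U ∩ {x | ((fun i => x.1 (i + n)), X n x.1 x.2) ∈ B})) atTop
          (𝓝 (((Measure.infinitePi ν).prod volume) U * ((Measure.infinitePi ν).prod volume) B))) ∧
      ∃ l : ℝ, q * s ^ 22 * A ^ 3 / 10 ^ 17 ≤ l ∧
        ∀ᵐ t ∂(Measure.infinitePi ν), ∀ᵐ z : ℝ × ℝ,
          Tendsto (fun n : ℕ => Real.log ‖fderiv ℝ (orbit a t n) z‖ / n) atTop (𝓝 l)) := by
  rw [orbit_eq] at hX ⊢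
  exact Pool.Agent.Helper95.RX.main A s q hA hA1 hs hs1 hq hq1 a ha ν hν X hX

end Pool.Agent.Results.MP_9ee088_an.RandomForcing
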