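import Mathlib
import Pool.Agent.Helper95.PF.Main

set_option autoImplicit false
open MeasureTheory Real Set Filter Topology
open Pool.Agent.Helper95.PF

namespace Pool.Agent.Results.MP_9ee088_an.RandomPotentials

/-- Standard maps `T(x, y) = (2x - y + a V'(x), x)` with a random potential `V = G + κ h_ω` of class `C^(2+s)`:
for every large parameter with probability at least `1 - |a| ^ (-c)`, and for almost every realization (the same
for all parameters) and all parameters in a set of density one, the map has one weakly mixing component of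
measure at least `1 - |a| ^ (-c)`, with Lyapunov exponent `∫ log |a V''|` up to `|a| ^ (-c)`. The background `G`
is arbitrary if `κ` is not small; if `G''` is nondegenerate, as for the potential of the standard map, `κ` may be
as small as `exp (- |a| ^ c)`. -/
theorem result (s : ℝ) (hs : 0 < s) (hs1 : s < 1) (χ : ℝ → ℝ) (hχ : ContDiff ℝ 3 χ)
    (hχ1 : ∀ t, |t| ≤ 1 / 2 → χ t = 1) (hχ0 : ∀ t, 1 ≤ |t| → χ t = 0) :
    (∃ C : ℝ, ∀ᵐ ω ∂law, Pot s C (noise χ s ω)) ∧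
    (Pot s 40 fun x => -(Real.cos (2 * π * x) / (2 * π))) ∧
    (Nondeg 40 fun x => -(Real.cos (2 * π * x) / (2 * π))) ∧
    ∀ R : ℝ, 1 ≤ R → ∃ c A : ℝ, 0 < c ∧ 0 < A ∧
      (∀ (a κ : ℝ) (G : ℝ → ℝ), A ≤ |a| → Real.exp (-|a| ^ c) ≤ κ → κ ≤ 1 → Pot s R G →
        (1 / R ≤ κ ∨ Nondeg R G) →
        law {ω | ¬ Good c a (fun x => G x + κ * noise χ s ω x)} ≤ ENNReal.ofReal (|a| ^ (-c))) ∧
      (∀ (κ : ℝ → ℝ) (G : ℝ → ℝ → ℝ), Measurable κ → (Measurable fun r : ℝ × ℝ => G r.1 r.2) →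
        (∀ a, A ≤ |a| → Real.exp (-|a| ^ c) ≤ κ a ∧ κ a ≤ 1 ∧ Pot s R (G a) ∧
          (1 / R ≤ κ a ∨ Nondeg R (G a))) →
        ∀ᵐ ω ∂law, ∃ Λ : Set ℝ, MeasurableSet Λ ∧
          (∃ r₀ : ℝ, ∀ r : ℝ, r₀ ≤ r → volume (Icc (-r) r \ Λ) ≤ ENNReal.ofReal (r ^ (1 - c))) ∧
          ∀ a ∈ Λ, Good c a (fun x => G a x + κ a * noise χ s ω x)) :=
  main s hs hs1 χ hχ hχ1 hχ0

end Pool.Agent.Results.MP_9ee088_an.RandomPotentials
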