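import Mathlib
import Pool.Agent.Helper95.SK.Fin

set_option autoImplicit false
open MeasureTheory Real Set

namespace Pool.Agent.Results.MP_9ee088_an.ScaleMixing

/-- Ergodicity and weak mixing of the standard map at all scales down to `exp (-τ)` with
`τ = o(a² / log |a|)`: every bounded (complex) eigenfunction `h` of the Koopman operator of the
standard map `T = S_a`, in particular every invariant function (`ξ = 1`), is almost uncorrelated
with every function `f` that is bounded by `1` and has Lipschitz constant at most `exp τ`. -/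
theorem result :
    ∃ C : ℝ, 0 < C ∧ ∀ a : ℝ, 2 ≤ |a| →
      ∀ T : UnitAddCircle × UnitAddCircle → UnitAddCircle × UnitAddCircle,
      (∀ x y : ℝ, T ((x : UnitAddCircle), (y : UnitAddCircle)) =
        (((2 * x - y + a * Real.sin (2 * π * x) : ℝ) : UnitAddCircle), (x : UnitAddCircle))) →
      ∀ ξ : ℂ, ‖ξ‖ = 1 →
      ∀ h : UnitAddCircle × UnitAddCircle → ℂ, Measurable h → (∀ p, ‖h p‖ ≤ 1) →
        (h ∘ T =ᵐ[volume] fun p => ξ * h p) →
      ∀ τ : ℝ, 1 ≤ τ → ∀ f : UnitAddCircle × UnitAddCircle → ℝ, (∀ p, |f p| ≤ 1) →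
        (∀ p q, |f p - f q| ≤ Real.exp τ * dist p q) →
      ‖(∫ p, h p * (f p : ℂ)) - (∫ p, h p) * ((∫ p, f p : ℝ) : ℂ)‖ ≤
        C * (|a| ^ (-(1 / 4) : ℝ) + (τ * Real.log |a| / |a| ^ 2) ^ (1 / 4 : ℝ)) := by
  obtain ⟨C, hC, hmain⟩ := Pool.Agent.Helper95.SK.scale_mixing
  refine ⟨C, hC, ?_⟩
  intro a ha T hT ξ hξ h hh hh1 hinv τ hτ f hf1 hfL
  have h1 := hmain a ha T hT τ hτ ξ hξ h hh hh1 hinv f hf1 hfL
  rw [show (-(1:ℝ)/4) = -(1/4) by ring] at h1
  exact h1

end Pool.Agent.Results.MP_9ee088_an.ScaleMixing
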